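import Pool.Agent.Helper46.TD.BC2

/-!
# Borel–Cantelli, uniform in the degree and in the weights
-/

set_option autoImplicit false

namespace Pool.Agent.Helper46.TD

open Pool.Agent.Helper46.TC

open MeasureTheory Set Polynomial Matrix Module

/-- the union over weights and exponents -/
def S2 (T : MTree) (F : Fam) (q : ℕ) (i : ℕ × ℕ × ℕ) : Set Om :=
  {z | 1 ≤ i.1 ∧ ∃ u : Fin i.1 → ℕ, (∀ j, u j ≤ i.2.2) ∧ ∃ w : Fin (i.1 + 1) → ℝ, (∀ c, w c ∈ F.W i.2.1) ∧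
    z ∈ S1 T q i.1 i.2.1 i.2.2 u w}

theorem card_bound (g k N t : ℕ) (D : ℝ) (hD : 0 ≤ D) :
    ((t : ℝ) + 1) ^ k * (((N : ℝ) + 1) ^ (g * (k + 1)) *
      (D * (((k : ℝ) + 1) ^ 3 / XX k N t ^ ((g + 8) * (k + 1))))) ≤
    D * (1 / ((k : ℝ) + 1) ^ 2 * (1 / ((N : ℝ) + 1) ^ 2 * (1 / ((t : ℝ) + 1) ^ 2))) := by
  have hX01 : 1 ≤ XX k N t := XX_one k N t
  have hX0pos : 0 < XX k N t := by linarith
  have hk0 : (0 : ℝ) ≤ k := Nat.cast_nonneg k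
  have hN0 : (0 : ℝ) ≤ N := Nat.cast_nonneg N
  have ht0 : (0 : ℝ) ≤ t := Nat.cast_nonneg t
  have e1 : ((t : ℝ) + 1) ^ k ≤ XX k N t ^ k := pow_le_pow_left₀ (by positivity) (XX_t k N t) _
  have e2 : ((N : ℝ) + 1) ^ (g * (k + 1)) ≤ XX k N t ^ (g * (k + 1)) := pow_le_pow_left₀ (by positivity) (XX_N k N t) _
  have e3 : ((k : ℝ) + 1) ^ 3 ≤ XX k N t ^ 3 := pow_le_pow_left₀ (by positivity) (XX_k k N t) _
  have e4 : XX k N t ^ k * (XX k N t ^ (g * (k + 1)) * XX k N t ^ 3) * XX k N t ^ 2 ≤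
      XX k N t ^ ((g + 8) * (k + 1)) := by
    rw [← pow_add, ← pow_add, ← pow_add]
    apply pow_le_pow_right₀ hX01
    have : (g + 8) * (k + 1) = g * (k + 1) + 8 * k + 8 := by ring
    omega
  have e5 : 1 / ((k : ℝ) + 1) ^ 2 * (1 / ((N : ℝ) + 1) ^ 2 * (1 / ((t : ℝ) + 1) ^ 2)) = 1 / XX k N t ^ 2 := by
    unfold XX
    rw [mul_pow, mul_pow, one_div_mul_one_div, one_div_mul_one_div, mul_assoc]
  have hp : 0 < XX k N t ^ ((g + 8) * (k + 1)) := pow_pos hX0pos _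
  have hp2 : 0 < XX k N t ^ 2 := pow_pos hX0pos _
  rw [e5]
  have e6 : ((t : ℝ) + 1) ^ k * (((N : ℝ) + 1) ^ (g * (k + 1)) * ((k : ℝ) + 1) ^ 3) /
      XX k N t ^ ((g + 8) * (k + 1)) ≤ 1 / XX k N t ^ 2 := by
    rw [div_le_div_iff₀ hp hp2, one_mul]
    refine le_trans ?_ e4
    apply mul_le_mul_of_nonneg_right _ hp2.le
    apply mul_le_mul e1 _ (by positivity) (pow_nonneg hX0pos.le _)
    exact mul_le_mul e2 e3 (by positivity) (pow_nonneg hX0pos.le _)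
  calc ((t : ℝ) + 1) ^ k * (((N : ℝ) + 1) ^ (g * (k + 1)) * (D * (((k : ℝ) + 1) ^ 3 / XX k N t ^ ((g + 8) * (k + 1)))))
      = D * (((t : ℝ) + 1) ^ k * (((N : ℝ) + 1) ^ (g * (k + 1)) * ((k : ℝ) + 1) ^ 3) /
        XX k N t ^ ((g + 8) * (k + 1))) := by ring
    _ ≤ _ := mul_le_mul_of_nonneg_left e6 hD

theorem S2_le (T : MTree) (F : Fam) (q : ℕ) (D : ℝ) (hD : 0 ≤ D)
    (hone : ∀ (k N t : ℕ), 1 ≤ k → ∀ (u : Fin k → ℕ), (∀ i, u i ≤ t) → ∀ (w : Fin (k + 1) → ℝ), (∀ c, w c ∈ F.W N) →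
      T.μ (S1 T q k N t u w) ≤ ENNReal.ofReal (D * (((k : ℝ) + 1) ^ 3 / XX k N t ^ ((F.g + 8) * (k + 1)))))
    (i : ℕ × ℕ × ℕ) : T.μ (S2 T F q i) ≤ ENNReal.ofReal (D *
      (1 / ((i.1 : ℝ) + 1) ^ 2 * (1 / ((i.2.1 : ℝ) + 1) ^ 2 * (1 / ((i.2.2 : ℝ) + 1) ^ 2)))) := by
  classical
  obtain ⟨k, N, t⟩ := i
  by_cases hk : 1 ≤ k
  swap
  · have : S2 T F q (k, N, t) = ∅ := by
      rw [eq_empty_iff_forall_notMem]
      rintro z ⟨h, _⟩
      exact hk h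
    rw [this, measure_empty]
    exact zero_le
  set B : ENNReal := ENNReal.ofReal (D * (((k : ℝ) + 1) ^ 3 / XX k N t ^ ((F.g + 8) * (k + 1)))) with hB
  have hsub : S2 T F q (k, N, t) ⊆ ⋃ u ∈ Fintype.piFinset (fun _ : Fin k => Finset.range (t + 1)),
      ⋃ w ∈ Fintype.piFinset (fun _ : Fin (k + 1) => F.W N), S1 T q k N t u w := by
    rintro z ⟨_, u, hu, w, hw, hz⟩
    rw [mem_iUnion₂]
    refine ⟨u, Fintype.mem_piFinset.2 fun i => Finset.mem_range.2 (Nat.lt_succ_of_le (hu i)), ?_⟩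
    rw [mem_iUnion₂]
    exact ⟨w, Fintype.mem_piFinset.2 hw, hz⟩
  refine (measure_mono hsub).trans ((measure_biUnion_finset_le _ _).trans ?_)
  have h1 : ∀ u ∈ Fintype.piFinset (fun _ : Fin k => Finset.range (t + 1)),
      T.μ (⋃ w ∈ Fintype.piFinset (fun _ : Fin (k + 1) => F.W N), S1 T q k N t u w) ≤
      (((N + 1) ^ (F.g * (k + 1)) : ℕ) : ENNReal) * B := by
    intro u hu
    rw [Fintype.mem_piFinset] at hu
    refine (measure_biUnion_finset_le _ _).trans ?_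
    have h2 : ∀ w ∈ Fintype.piFinset (fun _ : Fin (k + 1) => F.W N), T.μ (S1 T q k N t u w) ≤ B := by
      intro w hw
      rw [Fintype.mem_piFinset] at hw
      exact hone k N t hk u (fun i => Nat.lt_succ_iff.1 (Finset.mem_range.1 (hu i))) w hw
    refine (Finset.sum_le_sum h2).trans ?_
    rw [Finset.sum_const, nsmul_eq_mul, Fintype.card_piFinset]
    simp only [Finset.prod_const, Finset.card_univ, Fintype.card_fin]
    apply mul_le_mul' _ le_rfl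
    have h3 : (F.W N).card ^ (k + 1) ≤ (N + 1) ^ (F.g * (k + 1)) := by
      rw [pow_mul]
      exact Nat.pow_le_pow_left (F.card_le N) _
    exact_mod_cast h3
  refine (Finset.sum_le_sum h1).trans ?_
  rw [Finset.sum_const, nsmul_eq_mul, Fintype.card_piFinset]
  simp only [Finset.card_range, Finset.prod_const, Finset.card_univ, Fintype.card_fin]
  have h4 : (((t + 1) ^ k : ℕ) : ENNReal) * ((((N + 1) ^ (F.g * (k + 1)) : ℕ) : ENNReal) * B) =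
      ENNReal.ofReal (((t : ℝ) + 1) ^ k * (((N : ℝ) + 1) ^ (F.g * (k + 1)) *
        (D * (((k : ℝ) + 1) ^ 3 / XX k N t ^ ((F.g + 8) * (k + 1)))))) := by
    rw [ENNReal.ofReal_mul (by positivity), ENNReal.ofReal_mul (by positivity), hB]
    congr 1
    · rw [← ENNReal.ofReal_natCast]; push_cast; rfl
    · congr 1
      rw [← ENNReal.ofReal_natCast]; push_cast; rfl
  rw [h4]
  exact ENNReal.ofReal_le_ofReal (card_bound F.g k N t D hD)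

theorem tsum_fin (D : ℝ) (hD : 0 ≤ D) (f : ℕ × ℕ × ℕ → ENNReal) (h : ∀ i, f i ≤ ENNReal.ofReal (D *
      (1 / ((i.1 : ℝ) + 1) ^ 2 * (1 / ((i.2.1 : ℝ) + 1) ^ 2 * (1 / ((i.2.2 : ℝ) + 1) ^ 2))))) : ∑' i, f i ≠ ⊤ := by
  refine ne_top_of_le_ne_top ?_ (ENNReal.tsum_le_tsum h)
  have h1 : Summable fun n : ℕ => 1 / ((n : ℝ) + 1) ^ 2 := by
    have h1 := (summable_nat_add_iff 1).2 (Real.summable_one_div_nat_pow.2 (by norm_num : 1 < 2))
    simpa using h1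
  have h2 : Summable fun i : ℕ × ℕ => 1 / ((i.1 : ℝ) + 1) ^ 2 * (1 / ((i.2 : ℝ) + 1) ^ 2) :=
    h1.mul_of_nonneg h1 (fun n => by positivity) (fun n => by positivity)
  have h3 : Summable fun i : ℕ × ℕ × ℕ => 1 / ((i.1 : ℝ) + 1) ^ 2 *
      (1 / ((i.2.1 : ℝ) + 1) ^ 2 * (1 / ((i.2.2 : ℝ) + 1) ^ 2)) :=
    h1.mul_of_nonneg h2 (fun n => by positivity) (fun n => by positivity)
  rw [← ENNReal.ofReal_tsum_of_nonneg (fun i => by positivity) (h3.mul_left _)]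
  exact ENNReal.ofReal_ne_top

/-- lower bound for the threshold -/
theorem thr_lower (T : MTree) (q k N t m : ℕ) (hk : 1 ≤ k) (hR : 1 / ((k : ℝ) + 1) ^ (2 * k * (m + 1)) ≤ RR T k) :
    1 / XX k N t ^ ((2 * q + 2 * m + 4) * (k + 1) ^ 3) ≤ et q k N t ^ DD k * RR T k := by
  have hk2 : (2 : ℝ) ≤ (k : ℝ) + 1 := by
    have : (1 : ℝ) ≤ k := by exact_mod_cast hk
    linarith
  have hXk' : (k : ℝ) + 1 ≤ XX k N t := XX_k k N t
  have hX2 : (2 : ℝ) ≤ XX k N t := hk2.trans hXk'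
  have hX1' : 1 ≤ XX k N t := by linarith
  have hX0 : 0 < XX k N t := by linarith
  have e1 : 1 / XX k N t ^ (q * (k + 1) + 1) ≤ et q k N t := by
    unfold et
    have hp : 0 < XX k N t ^ (q * (k + 1)) := pow_pos hX0 _
    rw [pow_succ, div_div, div_le_div_iff₀ (mul_pos hp hX0) (mul_pos two_pos hp), one_mul, one_mul]
    rw [mul_comm]
    exact mul_le_mul_of_nonneg_left hX2 hp.le
  have e2 : 1 / XX k N t ^ (2 * k * (m + 1)) ≤ RR T k := by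
    refine le_trans ?_ hR
    apply one_div_le_one_div_of_le (by positivity)
    exact pow_le_pow_left₀ (by positivity) hXk' _
  have e3 : (1 / XX k N t ^ (q * (k + 1) + 1)) ^ DD k * (1 / XX k N t ^ (2 * k * (m + 1))) ≤
      et q k N t ^ DD k * RR T k :=
    mul_le_mul (pow_le_pow_left₀ (by positivity) e1 _) e2 (by positivity) (pow_nonneg (et_pos q k N t).le _)
  refine le_trans ?_ e3
  rw [div_pow, one_pow, ← pow_mul, div_mul_div_comm, one_mul, ← pow_add]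
  apply one_div_le_one_div_of_le (pow_pos hX0 _)
  apply pow_le_pow_right₀ hX1'
  unfold DD
  have c1 : (k + 1) * k ≤ (k + 1) ^ 2 := by
    rw [sq]; exact Nat.mul_le_mul_left _ (Nat.le_succ k)
  have c2 : (k + 1) ^ 2 ≤ (k + 1) ^ 3 := Nat.pow_le_pow_right (Nat.succ_pos k) (by norm_num)
  have c3 : k ≤ (k + 1) ^ 3 := (Nat.le_succ k).trans (Nat.le_self_pow (by norm_num) (k + 1))
  have h5 : (q * (k + 1) + 1) * (2 * ((k + 1) * k)) ≤ (2 * q + 2) * (k + 1) ^ 3 := by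
    calc (q * (k + 1) + 1) * (2 * ((k + 1) * k)) = 2 * q * (((k + 1) * k) * (k + 1)) + 2 * ((k + 1) * k) := by ring
      _ ≤ 2 * q * ((k + 1) ^ 2 * (k + 1)) + 2 * (k + 1) ^ 3 :=
        Nat.add_le_add (Nat.mul_le_mul_left _ (Nat.mul_le_mul_right _ c1)) (Nat.mul_le_mul_left _ (c1.trans c2))
      _ = (2 * q + 2) * (k + 1) ^ 3 := by ring
  have h6 : 2 * k * (m + 1) ≤ (2 * m + 2) * (k + 1) ^ 3 := by
    calc 2 * k * (m + 1) = (2 * m + 2) * k := by ring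
      _ ≤ (2 * m + 2) * (k + 1) ^ 3 := Nat.mul_le_mul_left _ c3
  calc _ ≤ (2 * q + 2) * (k + 1) ^ 3 + (2 * m + 2) * (k + 1) ^ 3 := add_le_add h5 h6
    _ = (2 * q + 2 * m + 4) * (k + 1) ^ 3 := by ring

theorem ae_large (T : MTree) (hT : 0 ≤ r0 T) (F : Fam) : ∃ K : ℕ, ∀ᵐ z ∂T.μ, ∃ t0 : ℕ, ∀ k : ℕ, 1 ≤ k →
    ∀ N t : ℕ, t0 ≤ t → ∀ u : Fin k → ℕ, (∀ i, u i ≤ t) → ∀ w : Fin (k + 1) → ℝ, (∀ c, w c ∈ F.W N) →
    ∀ v : Fin (k + 1) → ℤ, v ≠ 0 →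
      1 / (((k : ℝ) + 1) * ((N : ℝ) + 1) * ((t : ℝ) + 1)) ^ (K * (k + 1) ^ 3) ≤
        ((k : ℝ) + 1) ^ 2 * nrm (fun c => w c / mn w * Real.exp (∑ i, (u i : ℝ))) (wt u) (T.pt z) v := by
  obtain ⟨m, hRR⟩ := RR_lower T
  have hs := T.hs
  have hC := T.hC
  have hΘ1 : 1 ≤ max 1 (r1 T) := le_max_left _ _
  obtain ⟨θ, hθ⟩ := exists_nat_ge (Real.log (max 1 (r1 T)))
  have hθ' : max 1 (r1 T) ≤ Real.exp θ := by
    rw [← Real.log_le_iff_le_exp (by linarith)]; exact hθ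
  obtain ⟨q, hq⟩ := exists_nat_ge (2 + ((F.g : ℝ) + 8) / T.s)
  have hg0 : (0 : ℝ) ≤ F.g := Nat.cast_nonneg _
  have hq2 : 2 ≤ q := by
    have h1 : 0 ≤ ((F.g : ℝ) + 8) / T.s := by positivity
    have h2 : (2 : ℝ) ≤ q := by linarith
    exact_mod_cast h2
  have hqs : (F.g : ℝ) + 8 ≤ T.s * ((q : ℝ) - 2) := by
    have h1 : ((F.g : ℝ) + 8) / T.s ≤ q - 2 := by linarith
    rw [div_le_iff₀ hs] at h1
    linarith
  have hcc := cc_pos T (2 * F.g + θ + m + 6)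
  have hle := S2_le T F q (2 * T.C * cc T (2 * F.g + θ + m + 6) ^ T.s)
    (mul_nonneg (by linarith) (Real.rpow_nonneg hcc.le _)) (fun k N t hk u hu w hw =>
      one_bad T hT F m θ q (max 1 (r1 T)) hΘ1 (le_max_right _ _) hθ' hq2 hqs k N t hk (hRR k hk) u hu w hw)
  have hfin := tsum_fin _ (mul_nonneg (by linarith) (Real.rpow_nonneg hcc.le _)) _ hle
  refine ⟨2 * q + 2 * m + 4, ?_⟩
  filter_upwards [ae_finite_setOfPred_mem hfin] with z hz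
  obtain ⟨b, hb⟩ := (hz.image (fun i : ℕ × ℕ × ℕ => i.2.2)).bddAbove
  refine ⟨b + 1, fun k hk N t ht u hu w hw v hv => ?_⟩
  by_contra hcon
  push Not at hcon
  have h2 : z ∈ S2 T F q (k, N, t) :=
    ⟨hk, u, hu, w, hw, v, hv, hcon.trans_le (thr_lower T q k N t m hk (hRR k hk))⟩
  have : t ≤ b := hb ⟨(k, N, t), h2, rfl⟩
  omega

end Pool.Agent.Helper46.TD
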