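import Pool.Agent.Helper46.TD.Unif
import Pool.Agent.Helper46.TC.Units

/-!
# Measures on an interval with absolute decay in the dyadic cells
-/

set_option autoImplicit false

namespace Pool.Agent.Helper46.TD

open MeasureTheory Set Pool.Agent.Helper46.TC

/-- the dyadic cells of `[a, b)` -/
def Q (a b : ℝ) (n j : ℕ) : Set ℝ := Ico (a + (b - a) * (j / 2 ^ n)) (a + (b - a) * ((j + 1) / 2 ^ n))

/-- left end of the interval given by the first `n` binary digits -/
noncomputable def loD (a b : ℝ) (n : ℕ) (ω : Om) : ℝ :=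
  a + (b - a) * ∑ i ∈ Finset.range n, ((min (ω i) 1 : ℕ) : ℝ) / 2 ^ (i + 1)

/-- binary digits of a point relative to `[a, b)` -/
noncomputable def dig (a b : ℝ) (x : ℝ) : Om := fun i => ⌊2 ^ (i + 1) * ((x - a) / (b - a))⌋₊ % 2

theorem floor_half (y : ℝ) (n : ℕ) : ⌊2 ^ (n + 1) * y⌋₊ / 2 = ⌊2 ^ n * y⌋₊ := by
  have h1 : (2 : ℝ) ^ n * y = 2 ^ (n + 1) * y / (2 : ℕ) := by
    rw [pow_succ]
    push_cast
    ring
  rw [h1, Nat.floor_div_natCast]

theorem floor_step (y : ℝ) (n : ℕ) : ⌊2 ^ (n + 1) * y⌋₊ = 2 * ⌊2 ^ n * y⌋₊ + ⌊2 ^ (n + 1) * y⌋₊ % 2 := by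
  rw [← floor_half y n]
  omega

theorem floor_mono_level {y y' : ℝ} {m n : ℕ} (hmn : m ≤ n) (h : ⌊2 ^ n * y⌋₊ = ⌊2 ^ n * y'⌋₊) :
    ⌊2 ^ m * y⌋₊ = ⌊2 ^ m * y'⌋₊ := by
  induction n, hmn using Nat.le_induction with
  | base => exact h
  | succ n _ ih =>
    apply ih
    rw [← floor_half y n, ← floor_half y' n, h]

theorem sum_dig (a b x : ℝ) (hx0 : 0 ≤ (x - a) / (b - a)) (hx1 : (x - a) / (b - a) < 1) (n : ℕ) :
    ∑ i ∈ Finset.range n, ((min (dig a b x i) 1 : ℕ) : ℝ) / 2 ^ (i + 1) = (⌊2 ^ n * ((x - a) / (b - a))⌋₊ : ℝ) / 2 ^ n := by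
  induction n with
  | zero =>
    simp only [Finset.range_zero, Finset.sum_empty, pow_zero, one_mul, div_one]
    rw [Nat.floor_eq_zero.2 hx1]
    simp
  | succ n ih =>
    rw [Finset.sum_range_succ, ih]
    have h1 : min (dig a b x n) 1 = dig a b x n := by
      apply min_eq_left
      unfold dig
      omega
    rw [h1]
    have h2 := floor_step ((x - a) / (b - a)) n
    have h3 : ((⌊2 ^ (n + 1) * ((x - a) / (b - a))⌋₊ : ℕ) : ℝ) = 2 * (⌊2 ^ n * ((x - a) / (b - a))⌋₊ : ℝ) + (dig a b x n : ℝ) := by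
      unfold dig
      exact_mod_cast h2
    rw [h3, pow_succ]
    field_simp

theorem loD_mono (a b : ℝ) (hab : a < b) (n : ℕ) (ω : Om) : loD a b n ω ≤ loD a b (n + 1) ω := by
  unfold loD
  rw [Finset.sum_range_succ, mul_add]
  have : 0 ≤ (b - a) * (((min (ω n) 1 : ℕ) : ℝ) / 2 ^ (n + 1)) := mul_nonneg (by linarith) (by positivity)
  linarith

theorem hiD_anti (a b : ℝ) (hab : a < b) (n : ℕ) (ω : Om) :
    loD a b (n + 1) ω + (b - a) / 2 ^ (n + 1) ≤ loD a b n ω + (b - a) / 2 ^ n := by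
  unfold loD
  rw [Finset.sum_range_succ, mul_add]
  have h1 : ((min (ω n) 1 : ℕ) : ℝ) ≤ 1 := by
    have : min (ω n) 1 ≤ 1 := min_le_right _ _
    exact_mod_cast this
  have h2 : (b - a) * (((min (ω n) 1 : ℕ) : ℝ) / 2 ^ (n + 1)) ≤ (b - a) / 2 ^ (n + 1) := by
    rw [← mul_div_assoc]
    apply div_le_div_of_nonneg_right _ (by positivity)
    nlinarith
  have h3 : (b - a) / 2 ^ n = (b - a) / 2 ^ (n + 1) + (b - a) / 2 ^ (n + 1) := by
    rw [pow_succ]
    field_simp
    ring
  linarith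

theorem measurable_loD (a b : ℝ) (n : ℕ) : Measurable (loD a b n) := by
  unfold loD
  apply Measurable.const_add
  apply Measurable.const_mul
  apply Finset.measurable_fun_sum
  intro i _
  apply Measurable.div_const
  exact (measurable_from_nat (f := fun k : ℕ => ((min k 1 : ℕ) : ℝ))).comp (measurable_pi_apply i)

theorem measurable_dig (a b : ℝ) : Measurable (dig a b) := by
  rw [measurable_pi_iff]
  intro i
  unfold dig
  exact (measurable_from_nat (f := fun k : ℕ => k % 2)).comp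
    (Nat.measurable_floor.comp (((measurable_id.sub_const a).div_const (b - a)).const_mul _))

section

variable {a b : ℝ}

theorem frac_mem (hab : a < b) {x : ℝ} (hx : x ∈ Ico a b) : 0 ≤ (x - a) / (b - a) ∧ (x - a) / (b - a) < 1 := by
  have h0 : 0 < b - a := by linarith
  constructor
  · exact div_nonneg (by linarith [hx.1]) h0.le
  · rw [div_lt_one h0]
    linarith [hx.2]

theorem loD_dig (hab : a < b) {x : ℝ} (hx : x ∈ Ico a b) (n : ℕ) :
    loD a b n (dig a b x) = a + (b - a) * ((⌊2 ^ n * ((x - a) / (b - a))⌋₊ : ℝ) / 2 ^ n) := by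
  obtain ⟨h0, h1⟩ := frac_mem hab hx
  unfold loD
  rw [sum_dig a b x h0 h1]

theorem loD_dig_bounds (hab : a < b) {x : ℝ} (hx : x ∈ Ico a b) (n : ℕ) :
    loD a b n (dig a b x) ≤ x ∧ x < loD a b n (dig a b x) + (b - a) / 2 ^ n := by
  obtain ⟨h0, h1⟩ := frac_mem hab hx
  have hL : 0 < b - a := by linarith
  have hp : (0 : ℝ) < 2 ^ n := by positivity
  rw [loD_dig hab hx]
  set u := (x - a) / (b - a) with hu
  have hxu : x = a + (b - a) * u := by
    rw [hu]
    field_simp
    ring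
  have h2 : (⌊2 ^ n * u⌋₊ : ℝ) ≤ 2 ^ n * u := Nat.floor_le (by positivity)
  have h3 : 2 ^ n * u < (⌊2 ^ n * u⌋₊ : ℝ) + 1 := Nat.lt_floor_add_one _
  have h4 : (⌊2 ^ n * u⌋₊ : ℝ) / 2 ^ n ≤ u := by
    rw [div_le_iff₀ hp]
    linarith
  have h5 : u < (⌊2 ^ n * u⌋₊ : ℝ) / 2 ^ n + 1 / 2 ^ n := by
    rw [← add_div, lt_div_iff₀ hp]
    linarith
  constructor
  · rw [hxu]
    have := mul_le_mul_of_nonneg_left h4 hL.le
    linarith
  · rw [hxu]
    have := mul_lt_mul_of_pos_left h5 hL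
    have h6 : (b - a) / 2 ^ n = (b - a) * (1 / 2 ^ n) := by ring
    rw [h6]
    linarith

theorem pt_dig (hab : a < b) {x : ℝ} (hx : x ∈ Ico a b) : ptOf (loD a b) (dig a b x) = x := by
  have hL : 0 < b - a := by linarith
  unfold ptOf
  have hbdd : BddAbove (range fun n => loD a b n (dig a b x)) :=
    ⟨x, by rintro _ ⟨n, rfl⟩; exact (loD_dig_bounds hab hx n).1⟩
  apply le_antisymm
  · exact ciSup_le fun n => (loD_dig_bounds hab hx n).1
  · apply le_of_forall_pos_lt_add
    intro ε hε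
    obtain ⟨n, hn⟩ := exists_pow_lt_of_lt_one (div_pos hε hL) (by norm_num : (1 / 2 : ℝ) < 1)
    have h1 := (loD_dig_bounds hab hx n).2
    have h2 : (b - a) / 2 ^ n < ε := by
      have h3 : (b - a) / 2 ^ n = (1 / 2) ^ n * (b - a) := by
        rw [div_pow, one_pow]
        ring
      rw [h3]
      rwa [lt_div_iff₀ hL] at hn
    have h4 : loD a b n (dig a b x) ≤ ⨆ m, loD a b m (dig a b x) := le_ciSup hbdd n
    linarith

/-- preimage of a cylinder -/
theorem mem_cell (hab : a < b) {x x₀ : ℝ} (hx : x ∈ Ico a b) (hx₀ : x₀ ∈ Ico a b) {n : ℕ} {ω : Om}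
    (h₀ : dig a b x₀ ∈ cyl ω n) :
    dig a b x ∈ cyl ω n ↔ x ∈ Q a b n ⌊2 ^ n * ((x₀ - a) / (b - a))⌋₊ := by
  have hL : 0 < b - a := by linarith
  have hp : (0 : ℝ) < 2 ^ n := by positivity
  obtain ⟨hu0, hu1⟩ := frac_mem hab hx
  obtain ⟨hv0, hv1⟩ := frac_mem hab hx₀
  have hxu : x = a + (b - a) * ((x - a) / (b - a)) := by
    field_simp
    ring
  set u := (x - a) / (b - a) with hu
  set v := (x₀ - a) / (b - a) with hv
  have hiff : ⌊2 ^ n * u⌋₊ = ⌊2 ^ n * v⌋₊ ↔ x ∈ Q a b n ⌊2 ^ n * v⌋₊ := by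
    rw [Nat.floor_eq_iff (by positivity)]
    unfold Q
    rw [mem_Ico, hxu]
    constructor
    · rintro ⟨h1, h2⟩
      constructor
      · have h3 : (⌊2 ^ n * v⌋₊ : ℝ) / 2 ^ n ≤ u := by
          rw [div_le_iff₀ hp]
          linarith
        have := mul_le_mul_of_nonneg_left h3 hL.le
        linarith
      · have h3 : u < ((⌊2 ^ n * v⌋₊ : ℝ) + 1) / 2 ^ n := by
          rw [lt_div_iff₀ hp]
          linarith
        have := mul_lt_mul_of_pos_left h3 hL
        linarith
    · rintro ⟨h1, h2⟩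
      have h3 : (⌊2 ^ n * v⌋₊ : ℝ) / 2 ^ n ≤ u := le_of_mul_le_mul_left (by linarith) hL
      have h4 : u < ((⌊2 ^ n * v⌋₊ : ℝ) + 1) / 2 ^ n := lt_of_mul_lt_mul_left (by linarith) hL.le
      rw [div_le_iff₀ hp] at h3
      rw [lt_div_iff₀ hp] at h4
      constructor <;> linarith
  rw [← hiff]
  constructor
  · intro h
    have h1 := sum_dig a b x hu0 hu1 n
    have h2 := sum_dig a b x₀ hv0 hv1 n
    have h3 : ∑ i ∈ Finset.range n, ((min (dig a b x i) 1 : ℕ) : ℝ) / 2 ^ (i + 1) =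
        ∑ i ∈ Finset.range n, ((min (dig a b x₀ i) 1 : ℕ) : ℝ) / 2 ^ (i + 1) := by
      apply Finset.sum_congr rfl
      intro i hi
      rw [Finset.mem_range] at hi
      rw [h i hi, h₀ i hi]
    rw [h1, h2] at h3
    have h4 : (⌊2 ^ n * ((x - a) / (b - a))⌋₊ : ℝ) = (⌊2 ^ n * ((x₀ - a) / (b - a))⌋₊ : ℝ) := by
      exact (div_left_inj' hp.ne').1 h3
    exact_mod_cast h4
  · intro h i hi
    have h1 : dig a b x i = dig a b x₀ i := by
      unfold dig
      rw [floor_mono_level (by omega : i + 1 ≤ n) h]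
    rw [h1, h₀ i hi]

theorem floor_lt (hab : a < b) {x : ℝ} (hx : x ∈ Ico a b) (n : ℕ) : ⌊2 ^ n * ((x - a) / (b - a))⌋₊ < 2 ^ n := by
  obtain ⟨h0, h1⟩ := frac_mem hab hx
  rw [Nat.floor_lt (by positivity)]
  push_cast
  have : (0 : ℝ) < 2 ^ n := by positivity
  nlinarith

end

/-- the tree of a measure with absolute decay in the dyadic cells -/
noncomputable def treeOf (μ : Measure ℝ) [IsProbabilityMeasure μ] (a b : ℝ) (hab : a < b)
    (hsupp : μ (Ico a b)ᶜ = 0) (s C : ℝ) (hs : 0 < s) (hC : 0 < C)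
    (hdec : ∀ n j : ℕ, j < 2 ^ n → ∀ y r : ℝ, 0 < r →
      μ (Q a b n j ∩ {x | |x - y| < r}) ≤ ENNReal.ofReal (C * (r / ((b - a) / 2 ^ n)) ^ s) * μ (Q a b n j)) : MTree where
  μ := μ.map (dig a b)
  prob := Measure.isProbabilityMeasure_map (measurable_dig a b).aemeasurable
  lo := loD a b
  hi := fun n ω => loD a b n ω + (b - a) / 2 ^ n
  dep_lo := by
    intro n x y h
    unfold loD
    congr 2
    apply Finset.sum_congr rfl
    intro i hi
    rw [h i (Finset.mem_range.1 hi)]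
  dep_hi := by
    intro n x y h
    have : loD a b n y = loD a b n x := by
      unfold loD
      congr 2
      apply Finset.sum_congr rfl
      intro i hi
      rw [h i (Finset.mem_range.1 hi)]
    simp only [this]
  lt := by
    intro n x
    have : 0 < (b - a) / 2 ^ n := div_pos (by linarith) (by positivity)
    linarith
  lo_le := loD_mono a b hab
  hi_le := hiD_anti a b hab
  tend := by
    intro x
    have h1 : (fun n : ℕ => loD a b n x + (b - a) / 2 ^ n - loD a b n x) = fun n : ℕ => (b - a) * (1 / 2 : ℝ) ^ n := by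
      funext n
      rw [div_pow, one_pow]
      ring
    rw [h1]
    have h2 := (tendsto_pow_atTop_nhds_zero_of_lt_one (by norm_num : (0 : ℝ) ≤ 1 / 2) (by norm_num)).const_mul (b - a)
    rwa [mul_zero] at h2
  s := s
  C := C
  ρ := 2
  hs := hs
  hC := hC
  hρ := by norm_num
  decay := by
    intro y r n ω hr
    have hmpt : Measurable (ptOf (loD a b)) := by
      unfold ptOf
      exact Measurable.iSup fun n => measurable_loD a b n
    have hms : MeasurableSet (cyl ω n ∩ {z | |ptOf (loD a b) z - y| < r}) :=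
      (measurableSet_cyl ω n).inter (measurableSet_lt (hmpt.sub_const y).abs measurable_const)
    rw [Measure.map_apply (measurable_dig a b) hms, Measure.map_apply (measurable_dig a b) (measurableSet_cyl ω n)]
    by_cases hex : ∃ x₀ ∈ Ico a b, dig a b x₀ ∈ cyl ω n
    · obtain ⟨x₀, hx₀, h₀⟩ := hex
      set j := ⌊2 ^ n * ((x₀ - a) / (b - a))⌋₊ with hj
      have hjlt : j < 2 ^ n := floor_lt hab hx₀ n
      have h1 : μ (dig a b ⁻¹' (cyl ω n ∩ {z | |ptOf (loD a b) z - y| < r})) ≤ μ (Q a b n j ∩ {x | |x - y| < r}) := by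
        calc μ (dig a b ⁻¹' (cyl ω n ∩ {z | |ptOf (loD a b) z - y| < r}))
            ≤ μ ((Q a b n j ∩ {x | |x - y| < r}) ∪ (Ico a b)ᶜ) := by
              apply measure_mono
              intro x hx
              by_cases hxab : x ∈ Ico a b
              · left
                refine ⟨(mem_cell hab hxab hx₀ h₀).1 hx.1, ?_⟩
                have h2 : |ptOf (loD a b) (dig a b x) - y| < r := hx.2
                rw [pt_dig hab hxab] at h2
                exact h2
              · right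
                exact hxab
          _ ≤ μ (Q a b n j ∩ {x | |x - y| < r}) + μ (Ico a b)ᶜ := measure_union_le _ _
          _ = _ := by rw [hsupp, add_zero]
      have h2 : μ (Q a b n j) ≤ μ (dig a b ⁻¹' (cyl ω n)) := by
        calc μ (Q a b n j) ≤ μ (dig a b ⁻¹' (cyl ω n) ∪ (Ico a b)ᶜ) := by
              apply measure_mono
              intro x hx
              by_cases hxab : x ∈ Ico a b
              · left
                exact (mem_cell hab hxab hx₀ h₀).2 hx
              · right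
                exact hxab
          _ ≤ μ (dig a b ⁻¹' (cyl ω n)) + μ (Ico a b)ᶜ := measure_union_le _ _
          _ = _ := by rw [hsupp, add_zero]
      refine h1.trans ((hdec n j hjlt y r hr).trans ?_)
      have h3 : loD a b n ω + (b - a) / 2 ^ n - loD a b n ω = (b - a) / 2 ^ n := by ring
      rw [h3]
      gcongr
    · have h1 : μ (dig a b ⁻¹' (cyl ω n ∩ {z | |ptOf (loD a b) z - y| < r})) ≤ 0 := by
        rw [← hsupp]
        apply measure_mono
        intro x hx hxab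
        exact hex ⟨x, hxab, hx.1⟩
      exact h1.trans bot_le
  ratio := by
    intro n x
    have h1 : loD a b n x + (b - a) / 2 ^ n - loD a b n x = (b - a) / 2 ^ n := by ring
    have h2 : loD a b (n + 1) x + (b - a) / 2 ^ (n + 1) - loD a b (n + 1) x = (b - a) / 2 ^ (n + 1) := by ring
    rw [h1, h2]
    have h3 : (b - a) / 2 ^ n = 2 * ((b - a) / 2 ^ (n + 1)) := by
      rw [pow_succ]
      field_simp
    have h4 : 0 < (b - a) / 2 ^ (n + 1) := div_pos (by linarith) (by positivity)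
    have h5 : 0 ≤ |Real.log ((b - a) / 2 ^ n)| := abs_nonneg _
    nlinarith

/-- the measures of transcendence for almost all points of a measure with absolute decay in the dyadic cells -/
theorem ae_all_of_decay (μ : Measure ℝ) [IsProbabilityMeasure μ] (a b : ℝ) (ha : 0 ≤ a) (hab : a < b)
    (hsupp : μ (Ico a b)ᶜ = 0) (s C : ℝ) (hs : 0 < s) (hC : 0 < C)
    (hdec : ∀ n j : ℕ, j < 2 ^ n → ∀ y r : ℝ, 0 < r →
      μ (Q a b n j ∩ {x | |x - y| < r}) ≤ ENNReal.ofReal (C * (r / ((b - a) / 2 ^ n)) ^ s) * μ (Q a b n j)) :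
    ∀ᵐ x ∂μ, (∀ S : Finset ℕ, HasW (unitFam S) x) ∧ HasUnif x := by
  set T := treeOf μ a b hab hsupp s C hs hC hdec with hT
  have hT0 : 0 ≤ r0 T := by
    have : r0 T = a := by
      show loD a b 0 (fun _ => 0) = a
      simp [loD]
    rw [this]
    exact ha
  have h1 : ∀ᵐ z ∂T.μ, (∀ S : Finset ℕ, HasW (unitFam S) (T.pt z)) ∧ HasUnif (T.pt z) := by
    have h2 : ∀ᵐ z ∂T.μ, ∀ S : Finset ℕ, HasW (unitFam S) (T.pt z) :=
      ae_all_iff.2 fun S => ae_hasW T hT0 (unitFam S)
    filter_upwards [h2, ae_good T hT0] with z h1 h2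
    exact ⟨h1, h2.2⟩
  have h3 := ae_of_ae_map (measurable_dig a b).aemeasurable (show ∀ᵐ z ∂(μ.map (dig a b)), _ from h1)
  have h4 : ∀ᵐ x ∂μ, x ∈ Ico a b := by
    rw [ae_iff]
    exact hsupp
  filter_upwards [h3, h4] with x hx hxab
  have h5 : T.pt (dig a b x) = x := pt_dig hab hxab
  rwa [h5] at hx

end Pool.Agent.Helper46.TD
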