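import Pool.Agent.Helper46.TD.Tree
import Pool.Agent.Helper46.TC.Poly

/-!
# Polynomials are good on trees of intervals
-/

set_option autoImplicit false

namespace Pool.Agent.Helper46.TD

open Pool.Agent.Helper46.TC

open MeasureTheory Set Polynomial

namespace MTree

variable (T : MTree)

/-- polynomials are good -/
theorem good (D : ℕ) (f : ℝ[X]) (hf : f.natDegree ≤ D) (n : ℕ) (x : Om) (x0 : ℝ) (hx0 : x0 ∈ T.par n x)
    (σ : ℝ) (hσ : 0 < σ) (hratio : T.len (n - 1) x ≤ σ * T.len n x) (η : ℝ) (hη : 0 < η) (hη1 : η ≤ 1 / 2) :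
    T.μ (cyl x n ∩ {z | |f.eval (T.pt z)| < η ^ D * |f.eval x0|}) ≤
      ENNReal.ofReal (((D : ℝ) + 1) * T.C * (2 * σ * η) ^ T.s) * T.μ (cyl x n) := by
  have hl := T.len_pos n x
  have hC := T.hC
  classical
  set Z := (f.map (algebraMap ℝ ℂ)).roots.toFinset with hZ
  have hsub : cyl x n ∩ {z | |f.eval (T.pt z)| < η ^ D * |f.eval x0|} ⊆
      ⋃ w ∈ Z, (cyl x n ∩ {z | |T.pt z - w.re| < 2 * η * (σ * T.len n x)}) := by
    rintro z ⟨hz, hz2⟩
    obtain ⟨w, hw, hw2⟩ := root_near f D hf η hη hη1 (T.pt z) x0 hz2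
    rw [mem_iUnion₂]
    refine ⟨w, by rw [hZ, Multiset.mem_toFinset]; exact hw, hz, ?_⟩
    refine hw2.trans_le ?_
    apply mul_le_mul_of_nonneg_left _ (by positivity)
    have h1 := T.pt_mem_par n z
    rw [T.dep_par hz] at h1
    refine le_trans ?_ hratio
    unfold len
    rw [abs_le]
    constructor <;> linarith [h1.1, h1.2, hx0.1, hx0.2]
  refine (measure_mono hsub).trans ((measure_biUnion_finset_le _ _).trans ?_)
  have hterm : ∀ w ∈ Z, T.μ (cyl x n ∩ {z | |T.pt z - w.re| < 2 * η * (σ * T.len n x)}) ≤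
      ENNReal.ofReal (T.C * (2 * σ * η) ^ T.s) * T.μ (cyl x n) := by
    intro w _
    refine (T.decay w.re (2 * η * (σ * T.len n x)) n x (by positivity)).trans (le_of_eq ?_)
    congr 4
    have : T.hi n x - T.lo n x ≠ 0 := hl.ne'
    unfold len
    field_simp
  refine (Finset.sum_le_sum hterm).trans ?_
  rw [Finset.sum_const, nsmul_eq_mul, ← mul_assoc]
  gcongr
  have hcard : Z.card ≤ D := by
    rw [hZ]
    exact (Multiset.toFinset_card_le _).trans ((Polynomial.card_roots' _).trans ((natDegree_map_le).trans hf))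
  calc (Z.card : ENNReal) * ENNReal.ofReal (T.C * (2 * σ * η) ^ T.s)
      = ENNReal.ofReal ((Z.card : ℝ) * (T.C * (2 * σ * η) ^ T.s)) := by
        rw [ENNReal.ofReal_mul (Nat.cast_nonneg _), ENNReal.ofReal_natCast]
    _ ≤ _ := by
        apply ENNReal.ofReal_le_ofReal
        have h1 : (Z.card : ℝ) ≤ D + 1 := by
          have : (Z.card : ℝ) ≤ D := by exact_mod_cast hcard
          linarith
        calc (Z.card : ℝ) * (T.C * (2 * σ * η) ^ T.s) ≤ (D + 1) * (T.C * (2 * σ * η) ^ T.s) := by gcongr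
          _ = _ := by ring

end MTree

end Pool.Agent.Helper46.TD
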