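import Pool.Agent.Helper46.TD.Good

/-!
# Kleinbock-Margulis nondivergence, tree form

Maximal cylinders are nested or disjoint, so no covering theorem is needed and no constant is lost.
-/

set_option autoImplicit false

namespace Pool.Agent.Helper46.TD

open Pool.Agent.Helper46.TC

open MeasureTheory Set

/-- nodes of the tree -/
abbrev Node := Σ j : ℕ, (Fin j → ℕ)

/-- a sequence passing through the node -/
def ext (v : Node) : Om := fun i => if h : i < v.1 then v.2 ⟨i, h⟩ else 0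

/-- the node of level `j` on the path of `z` -/
def nodeOf (z : Om) (j : ℕ) : Node := ⟨j, fun i => z i⟩

theorem ext_nodeOf_mem (z : Om) (j : ℕ) : z ∈ cyl (ext (nodeOf z j)) j := by
  intro i hi
  simp [ext, nodeOf, hi]

theorem eq_of_mem_ext {v w : Node} (h : v.1 = w.1) {z : Om} (hv : z ∈ cyl (ext v) v.1)
    (hw : z ∈ cyl (ext w) w.1) : v = w := by
  obtain ⟨j, v⟩ := v
  obtain ⟨j', w⟩ := w
  simp only at h
  subst h
  congr 1
  ext i
  have h1 := hv i i.2
  have h2 := hw i i.2
  simp only [ext, i.2, dite_true] at h1 h2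
  rw [← h1, ← h2]

variable (T : MTree) {W : Type*} [PartialOrder W] (f : W → ℝ → ℝ) (R E : ℝ)

/-- comparable with every member of `F`, but not in `F` -/
def Cmp (F : Finset W) (V : W) : Prop := V ∉ F ∧ ∀ U ∈ F, V ≤ U ∨ U ≤ V

/-- marked points -/
def Marked (F : Finset W) (z : Om) : Prop :=
  ∃ F' : Finset W, F ⊆ F' ∧ IsChain (· ≤ ·) (F' : Set W) ∧
    (∀ V ∈ F', V ∉ F → E ≤ f V (T.pt z) ∧ f V (T.pt z) ≤ R) ∧ ∀ V, Cmp F' V → R ≤ f V (T.pt z)

theorem Cmp.of_insert [DecidableEq W] {F : Finset W} {V U : W} (h : Cmp (insert U F) V) : Cmp F V :=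
  ⟨fun hV => h.1 (Finset.mem_insert_of_mem hV), fun X hX => h.2 X (Finset.mem_insert_of_mem hX)⟩

/-- all values on the interval are small for some member comparable with `F` -/
def Bad (F : Finset W) (j : ℕ) (z : Om) : Prop :=
  ∃ V, Cmp F V ∧ ∀ y ∈ Icc (T.lo j z) (T.hi j z), f V y < R

theorem bad_dep {F : Finset W} {j : ℕ} {z z' : Om} (h : z' ∈ cyl z j) : Bad T f R F j z' ↔ Bad T f R F j z := by
  unfold Bad
  rw [T.dep_lo _ _ _ h, T.dep_hi _ _ _ h]

theorem exists_bad (hc : ∀ V, Continuous (f V)) {F : Finset W} {V : W} (hV : Cmp F V) {z : Om}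
    (h : f V (T.pt z) < R) (n : ℕ) : ∃ j, n ≤ j ∧ Bad T f R F j z := by
  obtain ⟨δ, hδ, hball⟩ := Metric.mem_nhds_iff.1 ((isOpen_lt (hc V) continuous_const).mem_nhds h)
  obtain ⟨j, hj1, hj2⟩ := (((T.tend z).eventually (gt_mem_nhds hδ)).and (Filter.eventually_ge_atTop n)).exists
  refine ⟨j, hj2, V, hV, fun y hy => ?_⟩
  have h2 := T.lo_le_pt j z
  have h3 := T.pt_le_hi j z
  have : y ∈ Metric.ball (T.pt z) δ := by
    rw [Metric.mem_ball, Real.dist_eq, abs_lt]
    constructor <;> linarith [hy.1, hy.2]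
  exact hball this

theorem km_step (hc : ∀ V, Continuous (f V)) (q : ENNReal)
    (hgood : ∀ V n x, (∃ y ∈ T.par n x, R ≤ f V y) → (∀ y ∈ Icc (T.lo n x) (T.hi n x), f V y < R) →
      T.μ (cyl x n ∩ {z | f V (T.pt z) < E}) ≤ q * T.μ (cyl x n))
    (d : ℕ) (hd : ∀ F : Finset W, IsChain (· ≤ ·) (F : Set W) → F.card ≤ d) :
    ∀ (m : ℕ) (F : Finset W), IsChain (· ≤ ·) (F : Set W) → d ≤ F.card + m →
    ∀ (n : ℕ) (x : Om), (∀ V, Cmp F V → ∃ y ∈ T.par n x, R ≤ f V y) →
    T.μ (cyl x n ∩ {z | ¬ Marked T f R E F z}) ≤ m * q * T.μ (cyl x n) := by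
  classical
  intro m
  induction m with
  | zero =>
    intro F hF hcard n x _
    have hno : ∀ V, ¬ Cmp F V := by
      intro V hV
      have hch : IsChain (· ≤ ·) ((insert V F : Finset W) : Set W) := by
        rw [Finset.coe_insert]
        exact hF.insert fun U hU _ => hV.2 U hU
      have h1 := hd _ hch
      rw [Finset.card_insert_of_notMem hV.1] at h1
      omega
    have hempty : cyl x n ∩ {z | ¬ Marked T f R E F z} = ∅ := by
      rw [eq_empty_iff_forall_notMem]
      rintro z ⟨_, hz⟩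
      exact hz ⟨F, Finset.Subset.refl F, hF, fun V hV hV' => absurd hV hV', fun V hV => absurd hV (hno V)⟩
    rw [hempty]
    simp
  | succ m ih =>
    intro F hF hcard n x hx
    -- minimal bad nodes
    set M : Set Node := {v | n ≤ v.1 ∧ ext v ∈ cyl x n ∧ Bad T f R F v.1 (ext v) ∧
      ∀ i, n ≤ i → i < v.1 → ¬ Bad T f R F i (ext v)} with hM
    have hcover : cyl x n ∩ {z | ¬ Marked T f R E F z} ⊆
        ⋃ v : M, (cyl (ext v.1) v.1.1 ∩ {z | ¬ Marked T f R E F z}) := by
      rintro z ⟨hz, hzm⟩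
      have hex : ∃ j, n ≤ j ∧ Bad T f R F j z := by
        by_contra hcon
        apply hzm
        refine ⟨F, Finset.Subset.refl F, hF, fun V hV hV' => absurd hV hV', fun V hV => ?_⟩
        by_contra hlt
        push Not at hlt
        exact hcon (exists_bad T f R hc hV hlt n)
      set j := Nat.find hex with hj
      obtain ⟨hj1, hj2⟩ := Nat.find_spec hex
      rw [← hj] at hj1 hj2
      have hmem := ext_nodeOf_mem z j
      have hmem' : ext (nodeOf z j) ∈ cyl z j := fun i hi => (hmem i hi).symm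
      have hv : nodeOf z j ∈ M := by
        refine ⟨hj1, ?_, ?_, ?_⟩
        · intro i hi
          rw [hmem' i (hi.trans_le hj1)]
          exact hz i hi
        · exact (bad_dep T f R hmem').2 hj2
        · intro i hi1 hi2 hb
          have h1 : Bad T f R F i z := (bad_dep T f R (cyl_anti hi2.le hmem')).1 hb
          exact Nat.find_min hex hi2 ⟨hi1, h1⟩
      rw [mem_iUnion]
      exact ⟨⟨nodeOf z j, hv⟩, hmem, hzm⟩
    have hdisj : Pairwise (Function.onFun Disjoint fun v : M => cyl (ext v.1) v.1.1) := by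
      intro v w hvw
      rw [Function.onFun, Set.disjoint_left]
      intro z hz1 hz2
      apply hvw
      have key : ∀ v w : M, z ∈ cyl (ext v.1) v.1.1 → z ∈ cyl (ext w.1) w.1.1 → ¬ v.1.1 < w.1.1 := by
        intro v w h1 h2 hlt
        apply w.2.2.2.2 v.1.1 v.2.1 hlt
        have h3 : Bad T f R F v.1.1 z := (bad_dep T f R h1).2 v.2.2.2.1
        exact (bad_dep T f R (cyl_anti hlt.le h2)).1 h3
      have h3 : v.1.1 = w.1.1 := le_antisymm (not_lt.1 (key w v hz2 hz1)) (not_lt.1 (key v w hz1 hz2))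
      exact Subtype.ext (eq_of_mem_ext h3 hz1 hz2)
    have hsub : (⋃ v : M, cyl (ext v.1) v.1.1) ⊆ cyl x n := by
      rintro z hz
      rw [mem_iUnion] at hz
      obtain ⟨v, hv⟩ := hz
      intro i hi
      rw [hv i (hi.trans_le v.2.1)]
      exact v.2.2.1 i hi
    have hterm : ∀ v : M, T.μ (cyl (ext v.1) v.1.1 ∩ {z | ¬ Marked T f R E F z}) ≤
        (m + 1 : ℕ) * q * T.μ (cyl (ext v.1) v.1.1) := by
      rintro ⟨v, hv1, hv2, hv3, hv4⟩
      obtain ⟨U, hU, hUsmall⟩ := hv3
      have hpar : ∀ V, Cmp F V → ∃ y ∈ T.par v.1 (ext v), R ≤ f V y := by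
        intro V hV
        rcases Nat.lt_or_ge n v.1 with hlt | hge
        · have h1 := hv4 (v.1 - 1) (by omega) (by omega)
          by_contra hcon
          apply h1
          refine ⟨V, hV, fun y hy => ?_⟩
          by_contra hyR
          push Not at hyR
          exact hcon ⟨y, hy, hyR⟩
        · have he : v.1 = n := le_antisymm hge hv1
          rw [he, T.dep_par hv2]
          exact hx V hV
      have hch : IsChain (· ≤ ·) ((insert U F : Finset W) : Set W) := by
        rw [Finset.coe_insert]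
        exact hF.insert fun X hX _ => hU.2 X hX
      have h1 := ih (insert U F) hch (by rw [Finset.card_insert_of_notMem hU.1]; omega) v.1 (ext v)
        (fun V hV => hpar V hV.of_insert)
      have h2 := hgood U v.1 (ext v) (hpar U hU) hUsmall
      have hsub2 : cyl (ext v) v.1 ∩ {z | ¬ Marked T f R E F z} ⊆
          (cyl (ext v) v.1 ∩ {z | ¬ Marked T f R E (insert U F) z}) ∪
          (cyl (ext v) v.1 ∩ {z | f U (T.pt z) < E}) := by
        rintro z ⟨hz, hzm⟩
        by_contra hcon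
        rw [mem_union, not_or] at hcon
        have h3 : Marked T f R E (insert U F) z := by
          by_contra h; exact hcon.1 ⟨hz, h⟩
        have h4 : E ≤ f U (T.pt z) := by
          by_contra h; push Not at h; exact hcon.2 ⟨hz, h⟩
        obtain ⟨F', hF1, hF2, hF3, hF4⟩ := h3
        apply hzm
        refine ⟨F', (Finset.subset_insert U F).trans hF1, hF2, fun V hV hV' => ?_, hF4⟩
        by_cases hVU : V = U
        · subst hVU
          refine ⟨h4, (hUsmall _ ?_).le⟩
          have h5 := T.lo_le_pt v.1 z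
          have h6 := T.pt_le_hi v.1 z
          rw [T.dep_lo _ _ _ hz] at h5
          rw [T.dep_hi _ _ _ hz] at h6
          exact ⟨h5, h6⟩
        · exact hF3 V hV (by rw [Finset.mem_insert, not_or]; exact ⟨hVU, hV'⟩)
      calc T.μ (cyl (ext v) v.1 ∩ {z | ¬ Marked T f R E F z})
          ≤ T.μ (cyl (ext v) v.1 ∩ {z | ¬ Marked T f R E (insert U F) z}) +
            T.μ (cyl (ext v) v.1 ∩ {z | f U (T.pt z) < E}) := (measure_mono hsub2).trans (measure_union_le _ _)
        _ ≤ m * q * T.μ (cyl (ext v) v.1) + q * T.μ (cyl (ext v) v.1) := add_le_add h1 h2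
        _ = (m + 1 : ℕ) * q * T.μ (cyl (ext v) v.1) := by push_cast; ring
    calc T.μ (cyl x n ∩ {z | ¬ Marked T f R E F z})
        ≤ T.μ (⋃ v : M, (cyl (ext v.1) v.1.1 ∩ {z | ¬ Marked T f R E F z})) := measure_mono hcover
      _ ≤ ∑' v : M, T.μ (cyl (ext v.1) v.1.1 ∩ {z | ¬ Marked T f R E F z}) := measure_iUnion_le _
      _ ≤ ∑' v : M, (m + 1 : ℕ) * q * T.μ (cyl (ext v.1) v.1.1) := ENNReal.tsum_le_tsum hterm
      _ = (m + 1 : ℕ) * q * ∑' v : M, T.μ (cyl (ext v.1) v.1.1) := ENNReal.tsum_mul_left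
      _ = (m + 1 : ℕ) * q * T.μ (⋃ v : M, cyl (ext v.1) v.1.1) := by
          rw [measure_iUnion hdisj fun v => measurableSet_cyl _ _]
      _ ≤ (m + 1 : ℕ) * q * T.μ (cyl x n) := by gcongr

/-- nondivergence -/
theorem km (hc : ∀ V, Continuous (f V)) (q : ENNReal)
    (hgood : ∀ V n x, (∃ y ∈ T.par n x, R ≤ f V y) → (∀ y ∈ Icc (T.lo n x) (T.hi n x), f V y < R) →
      T.μ (cyl x n ∩ {z | f V (T.pt z) < E}) ≤ q * T.μ (cyl x n))
    (d : ℕ) (hd : ∀ F : Finset W, IsChain (· ≤ ·) (F : Set W) → F.card ≤ d)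
    (hroot : ∀ (V : W) (x : Om), ∃ y ∈ T.par 0 x, R ≤ f V y) :
    T.μ {z | ¬ Marked T f R E ∅ z} ≤ d * q := by
  have h := km_step T f R E hc q hgood d hd d ∅ (by simp) (by simp) 0 (fun _ => 0)
    (fun V _ => hroot V _)
  rw [cyl_zero, univ_inter] at h
  simpa using h

end Pool.Agent.Helper46.TD
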