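import Pool.Agent.Helper46.TC.Def
import Pool.Agent.Helper46.TD.Sub
import Pool.Agent.Helper46.TC.Stable

/-!
# The measure of the set of points with a short vector, and Borel–Cantelli
-/

set_option autoImplicit false

namespace Pool.Agent.Helper46.TD

open Pool.Agent.Helper46.TC

open MeasureTheory Set Polynomial Matrix Module

variable {k : ℕ}

/-- end points of the root -/
noncomputable def r0 (T : MTree) : ℝ := T.lo 0 (fun _ => 0)
noncomputable def r1 (T : MTree) : ℝ := T.hi 0 (fun _ => 0)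

theorem r0_lt_r1 (T : MTree) : r0 T < r1 T := T.lt 0 _

theorem lo0 (T : MTree) (x : Om) : T.lo 0 x = r0 T := T.dep_lo 0 _ _ (by intro i hi; omega)
theorem hi0 (T : MTree) (x : Om) : T.hi 0 x = r1 T := T.dep_hi 0 _ _ (by intro i hi; omega)

theorem r0_le_lo (T : MTree) (n : ℕ) (x : Om) : r0 T ≤ T.lo n x := by
  rw [← lo0 T x]; exact T.lo_mono x (Nat.zero_le n)

theorem hi_le_r1 (T : MTree) (n : ℕ) (x : Om) : T.hi n x ≤ r1 T := by
  rw [← hi0 T x]; exact T.hi_anti x (Nat.zero_le n)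

theorem len_le_root (T : MTree) (n : ℕ) (x : Om) : T.len n x ≤ r1 T - r0 T := by
  have h1 := r0_le_lo T n x
  have h2 := hi_le_r1 T n x
  unfold MTree.len
  linarith

/-- the level `R` -/
noncomputable def RR (T : MTree) (k : ℕ) : ℝ := (low k (r0 T) (r1 T) ^ k) ^ 2

theorem RR_pos (T : MTree) (k : ℕ) : 0 < RR T k := by
  have := low_pos k (r0_lt_r1 T)
  unfold RR; positivity

theorem RR_le_one (T : MTree) (k : ℕ) : RR T k ≤ 1 := by
  have h1 := low_pos k (r0_lt_r1 T)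
  have h2 := low_le_one k (r0 T) (r1 T)
  unfold RR
  exact pow_le_one₀ (pow_nonneg h1.le _) (pow_le_one₀ h1.le h2)

theorem Psi_lower' (A B : Fin (k + 1) → ℝ) (hB : ∀ c, 0 < B c) (hB1 : ∀ c, B c ≤ 1) (hA : ∀ c, 0 < A c)
    (hAB : ∀ c, 1 ≤ A c * ∏ j : Fin k, B j.succ) {a b : ℝ} (hab : a < b) :
    ∀ (n : ℕ) (u : Fin n → Fin (k + 1) → ℤ) (_ : 1 ≤ n) (_ : LinearIndependent ℚ fun i => toQ (u i)),
    ∃ y ∈ Icc a b, (low k a b ^ k) ^ 2 ≤ Psi A B y u := by
  intro n u h1 hu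
  obtain ⟨r, rfl⟩ := Nat.exists_eq_add_of_le' h1
  exact Psi_lower A B hB hB1 hA hAB u hu hab

/-- the degree in the goodness estimate -/
def DD (k : ℕ) : ℕ := 2 * ((k + 1) * k)

/-- Lipschitz constant of the minors -/
noncomputable def Lip (k : ℕ) (a β Θ : ℝ) : ℝ := ((k : ℝ) + 1) * (a * (k * Θ ^ k) / β)

theorem meas (T : MTree) (hT : 0 ≤ r0 T) (hk : 1 ≤ k) (A B : Fin (k + 1) → ℝ) (a β Θ : ℝ) (hβ : 0 < β) (hΘ : 1 ≤ Θ)
    (hΘ1 : r1 T ≤ Θ) (hβB : ∀ c, β ≤ B c) (hB1 : ∀ c, B c ≤ 1) (hA : ∀ c, 0 < A c) (hAa : ∀ c, A c ≤ a)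
    (hAB : ∀ c, 1 ≤ A c * ∏ j : Fin k, B j.succ)
    (lam : ℝ) (_ : 0 < lam) (hlam2 : 4 * (((k : ℝ) + 1) ^ (k + 1) * (Lip k a β Θ * lam) ^ 2) ≤ RR T k)
    (σ : ℝ) (hσ : 0 < σ) (hσ2 : ∀ n x, lam < T.len (n - 1) x → T.len (n - 1) x ≤ σ * T.len n x)
    (η : ℝ) (hη : 0 < η) (hη1 : η ≤ 1 / 2) :
    T.μ {z | ∃ v : Fin (k + 1) → ℤ, v ≠ 0 ∧ ((k : ℝ) + 1) ^ 2 * nrm A B (T.pt z) v < η ^ DD k * RR T k} ≤
      ENNReal.ofReal (2 * ((k : ℝ) + 1) ^ 3 * T.C * (2 * σ * η) ^ T.s) := by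
  have hC := T.hC
  have hB : ∀ c, 0 < B c := fun c => lt_of_lt_of_le hβ (hβB c)
  have hR0 := RR_pos T k
  have hR1 := RR_le_one T k
  have hkR : (1 : ℝ) ≤ k := by exact_mod_cast hk
  have hη2 : η ^ DD k ≤ 1 / 4 := by
    have h1 : 2 ≤ DD k := by unfold DD; nlinarith
    calc η ^ DD k ≤ (1 / 2) ^ DD k := pow_le_pow_left₀ hη.le hη1 _
      _ ≤ (1 / 2) ^ 2 := pow_le_pow_of_le_one (by norm_num) (by norm_num) h1
      _ = 1 / 4 := by norm_num
  set R := RR T k with hRdef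
  set E := η ^ DD k * R with hE
  have hER4 : E ≤ R / 4 := by rw [hE]; nlinarith
  have hER : E ≤ R := by linarith
  have hcont : ∀ V : Wt k, Continuous (fV A B V) := fun V => continuous_Psi A B _
  have hkm := km T (fV (k := k) A B) R E hcont (ENNReal.ofReal (((DD k : ℕ) + 1) * T.C * (2 * σ * η) ^ T.s)) (by
    rintro V n x ⟨y, hy, hRy⟩ hsmall
    by_cases hdeep : T.len (n - 1) x ≤ lam
    · -- no point of the node is below `E`
      have hempty : cyl x n ∩ {z | fV A B V (T.pt z) < E} = ∅ := by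
        rw [eq_empty_iff_forall_notMem]
        rintro z ⟨hz, hz2⟩
        have hz3 : Psi A B (T.pt z) (bs V.1) < E := hz2
        have hzn : T.pt z ∈ T.par n x := by rw [← T.dep_par hz]; exact T.pt_mem_par n z
        have h0 : ∀ w ∈ T.par n x, 0 ≤ w ∧ w ≤ Θ := fun w hw =>
          ⟨hT.trans ((r0_le_lo T _ _).trans hw.1), hw.2.trans ((hi_le_r1 T _ _).trans hΘ1)⟩
        have hdist : |T.pt z - y| ≤ lam := by
          refine le_trans ?_ hdeep
          unfold MTree.len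
          rw [abs_le]
          constructor <;> linarith [hzn.1, hzn.2, hy.1, hy.2]
        have h1 := Psi_stable A B (fun c => (hA c).le) hAa hβ hβB hΘ (h0 _ hzn).1 (h0 _ hzn).2 (h0 _ hy).1 (h0 _ hy).2
          (bs V.1) (by linarith)
        have hRy' : R ≤ Psi A B y (bs V.1) := hRy
        have hLip : 0 ≤ Lip k a β Θ := by
          unfold Lip
          have : 0 ≤ a := (hA 0).le.trans (hAa 0)
          positivity
        have h2 : ((k : ℝ) + 1) ^ (finrank ℚ V.1) * (((k : ℝ) + 1) * (a * (k * Θ ^ k) / β) * |T.pt z - y|) ^ 2 ≤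
            ((k : ℝ) + 1) ^ (k + 1) * (Lip k a β Θ * lam) ^ 2 := by
          apply mul_le_mul
          · exact pow_le_pow_right₀ (by linarith) (finrank_le V.1)
          · apply pow_le_pow_left₀ (mul_nonneg hLip (abs_nonneg _))
            exact mul_le_mul_of_nonneg_left hdist hLip
          · positivity
          · positivity
        linarith
      rw [hempty, measure_empty]
      exact zero_le
    · push Not at hdeep
      have h1 := T.good (DD k) (PsiP A B (bs V.1)) (by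
        refine (natDegree_PsiP _ _ _).trans ?_
        unfold DD
        exact Nat.mul_le_mul_left 2 (Nat.mul_le_mul_right k (finrank_le V.1))) n x y hy σ hσ (hσ2 n x hdeep) η hη hη1
      refine (measure_mono ?_).trans h1
      rintro z ⟨hz, hz2⟩
      refine ⟨hz, ?_⟩
      show |(PsiP A B (bs V.1)).eval (T.pt z)| < η ^ DD k * |(PsiP A B (bs V.1)).eval y|
      rw [eval_PsiP, eval_PsiP, abs_of_nonneg (Psi_nonneg _ _ _ _), abs_of_nonneg (Psi_nonneg _ _ _ _)]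
      have hz3 : Psi A B (T.pt z) (bs V.1) < E := hz2
      have hRy' : R ≤ Psi A B y (bs V.1) := hRy
      refine hz3.trans_le ?_
      rw [hE]
      exact mul_le_mul_of_nonneg_left hRy' (pow_nonneg hη.le _)) (k + 1) chain_card (by
    intro V x
    have h0 : T.par 0 x = Icc (r0 T) (r1 T) := by
      unfold MTree.par
      rw [lo0, hi0]
    rw [h0]
    exact Psi_lower' A B hB hB1 hA hAB (r0_lt_r1 T) _ (bs V.1) (one_le_finrank V) (bs_li V.1))
  refine (measure_mono ?_).trans (hkm.trans ?_)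
  · rintro z ⟨v, hv, hz⟩ hm
    exact absurd (no_short T A B R E hR1 hER z hm v hv) (not_le.2 hz)
  · rw [← ENNReal.ofReal_natCast, ← ENNReal.ofReal_mul (by positivity)]
    apply ENNReal.ofReal_le_ofReal
    have h1 : ((DD k : ℕ) : ℝ) + 1 ≤ 2 * ((k : ℝ) + 1) ^ 2 := by
      unfold DD
      push_cast
      nlinarith
    push_cast
    calc ((k : ℝ) + 1) * ((((DD k : ℕ) : ℝ) + 1) * T.C * (2 * σ * η) ^ T.s)
        ≤ ((k : ℝ) + 1) * ((2 * ((k : ℝ) + 1) ^ 2) * T.C * (2 * σ * η) ^ T.s) := by gcongr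
      _ = _ := by ring

/-- the weights -/
noncomputable def wt (t : Fin k → ℕ) : Fin (k + 1) → ℝ := Fin.cons 1 (fun i => Real.exp (-(t i : ℝ)))

theorem wt_succ (t : Fin k → ℕ) (i : Fin k) : wt t i.succ = Real.exp (-(t i : ℝ)) := by simp [wt]

theorem wt_le (t : Fin k → ℕ) (c : Fin (k + 1)) : wt t c ≤ 1 := by
  refine Fin.cases ?_ (fun i => ?_) c
  · simp [wt]
  · rw [wt_succ, Real.exp_le_one_iff]
    linarith [Nat.cast_nonneg (α := ℝ) (t i)]

theorem le_wt (t : Fin k → ℕ) (τ : ℕ) (h : ∀ i, t i ≤ τ) (c : Fin (k + 1)) : Real.exp (-(τ : ℝ)) ≤ wt t c := by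
  refine Fin.cases ?_ (fun i => ?_) c
  · simp only [wt, Fin.cons_zero, Real.exp_le_one_iff]
    linarith [Nat.cast_nonneg (α := ℝ) τ]
  · rw [wt_succ]
    apply Real.exp_le_exp.2
    have : ((t i : ℕ) : ℝ) ≤ τ := by exact_mod_cast h i
    linarith

theorem RR_lower (T : MTree) : ∃ m : ℕ, ∀ k : ℕ, 1 ≤ k → 1 / ((k : ℝ) + 1) ^ (2 * k * (m + 1)) ≤ RR T k := by
  set a := r0 T
  set b := r1 T
  have hab : a < b := r0_lt_r1 T
  have h1 : 0 < min 1 ((b - a) / 2) := lt_min one_pos (by linarith)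
  obtain ⟨m, hm⟩ := exists_pow_lt_of_lt_one h1 (by norm_num : (1 / 2 : ℝ) < 1)
  refine ⟨m, fun k hk => ?_⟩
  have hk1 : (2 : ℝ) ≤ (k : ℝ) + 1 := by
    have : (1 : ℝ) ≤ k := by exact_mod_cast hk
    linarith
  have h2 : 1 / ((k : ℝ) + 1) ^ (m + 1) ≤ low k a b := by
    have h3 : 1 / ((k : ℝ) + 1) ^ m ≤ (1 / 2) ^ m := by
      rw [_root_.one_div_pow]
      exact one_div_le_one_div_of_le (by positivity) (pow_le_pow_left₀ (by norm_num) hk1 m)
    have h4 : 1 / ((k : ℝ) + 1) ≤ 1 := by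
      rw [div_le_one (by positivity)]; linarith
    have h5 : 1 / ((k : ℝ) + 1) ^ (m + 1) = 1 / ((k : ℝ) + 1) ^ m * (1 / ((k : ℝ) + 1)) := by
      rw [pow_succ]; field_simp
    have h6 : 0 ≤ 1 / ((k : ℝ) + 1) := by positivity
    unfold low
    apply le_min
    · rw [h5]
      apply mul_le_one₀ _ h6 h4
      exact h3.trans (pow_le_one₀ (by norm_num) (by norm_num))
    · rw [h5]
      calc 1 / ((k : ℝ) + 1) ^ m * (1 / ((k : ℝ) + 1)) ≤ (b - a) / 2 * (1 / ((k : ℝ) + 1)) := by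
            apply mul_le_mul_of_nonneg_right _ h6
            exact h3.trans (hm.le.trans (min_le_right _ _))
        _ = (b - a) / (2 * ((k : ℝ) + 1)) := by field_simp
  have h3 : 0 ≤ 1 / ((k : ℝ) + 1) ^ (m + 1) := by positivity
  unfold RR
  rw [← pow_mul]
  refine le_trans (le_of_eq ?_) (pow_le_pow_left₀ h3 h2 (k * 2))
  rw [div_pow, one_pow, ← pow_mul]
  congr 2
  ring

end Pool.Agent.Helper46.TD
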