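import Pool.Agent.Helper46.TC.Tree

/-!
# Trees of intervals with an arbitrary measure
-/

set_option autoImplicit false

namespace Pool.Agent.Helper46.TD

open MeasureTheory Set Pool.Agent.Helper46.TC

/-- a tree of intervals with a decaying measure -/
structure MTree where
  /-- the measure -/
  μ : Measure Om
  prob : IsProbabilityMeasure μ
  lo : ℕ → Om → ℝ
  hi : ℕ → Om → ℝ
  dep_lo : ∀ n x y, y ∈ cyl x n → lo n y = lo n x
  dep_hi : ∀ n x y, y ∈ cyl x n → hi n y = hi n x
  lt : ∀ n x, lo n x < hi n x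
  lo_le : ∀ n x, lo n x ≤ lo (n + 1) x
  hi_le : ∀ n x, hi (n + 1) x ≤ hi n x
  tend : ∀ x, Filter.Tendsto (fun n => hi n x - lo n x) Filter.atTop (nhds 0)
  /-- decay exponent and constants -/
  s : ℝ
  C : ℝ
  ρ : ℝ
  hs : 0 < s
  hC : 0 < C
  hρ : 0 < ρ
  decay : ∀ (y r : ℝ) (n : ℕ) (x : Om), 0 < r → μ (cyl x n ∩ {z | |ptOf lo z - y| < r}) ≤
    ENNReal.ofReal (C * (r / (hi n x - lo n x)) ^ s) * μ (cyl x n)
  ratio : ∀ n x, hi n x - lo n x ≤ ρ * (1 + |Real.log (hi n x - lo n x)|) * (hi (n + 1) x - lo (n + 1) x)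

namespace MTree

variable (T : MTree)

instance : IsProbabilityMeasure T.μ := T.prob

/-- length of the interval of `x` at level `n` -/
def len (n : ℕ) (x : Om) : ℝ := T.hi n x - T.lo n x

/-- limit point -/
noncomputable def pt (x : Om) : ℝ := ptOf T.lo x

theorem len_pos (n : ℕ) (x : Om) : 0 < T.len n x := sub_pos.2 (T.lt n x)

theorem dep_len {n : ℕ} {x y : Om} (h : y ∈ cyl x n) : T.len n y = T.len n x := by
  unfold len; rw [T.dep_lo n x y h, T.dep_hi n x y h]

theorem lo_mono (x : Om) : Monotone fun n => T.lo n x := monotone_nat_of_le_succ fun n => T.lo_le n x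

theorem hi_anti (x : Om) : Antitone fun n => T.hi n x := antitone_nat_of_succ_le fun n => T.hi_le n x

theorem lo_le_hi (m n : ℕ) (x : Om) : T.lo m x ≤ T.hi n x :=
  (T.lo_mono x (le_max_left m n)).trans ((T.lt (max m n) x).le.trans (T.hi_anti x (le_max_right m n)))

theorem bdd (x : Om) : BddAbove (range fun n => T.lo n x) :=
  ⟨T.hi 0 x, by rintro _ ⟨n, rfl⟩; exact T.lo_le_hi n 0 x⟩

theorem lo_le_pt (n : ℕ) (x : Om) : T.lo n x ≤ T.pt x := le_ciSup (T.bdd x) n

theorem pt_le_hi (n : ℕ) (x : Om) : T.pt x ≤ T.hi n x := ciSup_le fun m => T.lo_le_hi m n x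

theorem len_anti (n : ℕ) (x : Om) : T.len (n + 1) x ≤ T.len n x := by
  have h1 := T.lo_le n x
  have h2 := T.hi_le n x
  unfold len
  linarith

/-- parent interval -/
def par (n : ℕ) (x : Om) : Set ℝ := Icc (T.lo (n - 1) x) (T.hi (n - 1) x)

theorem dep_par {n : ℕ} {x y : Om} (h : y ∈ cyl x n) : T.par n y = T.par n x := by
  unfold par
  rw [T.dep_lo _ _ _ (cyl_anti (Nat.sub_le n 1) h), T.dep_hi _ _ _ (cyl_anti (Nat.sub_le n 1) h)]

theorem pt_mem_par (n : ℕ) (x : Om) : T.pt x ∈ T.par n x := ⟨T.lo_le_pt _ x, T.pt_le_hi _ x⟩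

/-- the ratio of the lengths of the parent and of the interval -/
theorem par_len (n : ℕ) (x : Om) :
    T.len (n - 1) x ≤ max 1 (T.ρ * (1 + |Real.log (T.len (n - 1) x)|)) * T.len n x := by
  have hl := T.len_pos n x
  cases n with
  | zero =>
    simp only [Nat.zero_sub]
    exact le_mul_of_one_le_left hl.le (le_max_left _ _)
  | succ n =>
    simp only [Nat.add_sub_cancel]
    exact (T.ratio n x).trans (mul_le_mul_of_nonneg_right (le_max_right _ _) hl.le)

end MTree

end Pool.Agent.Helper46.TD
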